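import Pool.Agent.Helper5.KPA.StP

set_option autoImplicit false

namespace Pool.Agent.Helper19.KPA

open Pool.Agent.Helper5.KPA Pool.Agent.Helper52.KP MvPolynomial

private theorem qr_mul {C : Cone} (hC : Good C) {a a' : ℕ} {x y : QQ C.m} (hx : x ∈ QR C a)
    (hy : y ∈ QR C a') : x * y ∈ QR C (a + a') := by
  intro l
  rw [Polynomial.coeff_mul]
  exact Submodule.sum_mem _ fun p _ => hC.mul _ _ _ _ (hx p.1) (hy p.2)

private theorem qr_one {C : Cone} (hC : Good C) : (1 : QQ C.m) ∈ QR C 0 := by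
  intro l
  rw [Polynomial.coeff_one]
  split_ifs
  · exact hC.one
  · exact (C.R 0).zero_mem

private theorem qr_X {C : Cone} (hC : Good C) : (Polynomial.X : QQ C.m) ∈ QR C 0 := by
  intro l
  rw [Polynomial.coeff_X]
  split_ifs
  · exact hC.one
  · exact (C.R 0).zero_mem

private theorem qr_C {C : Cone} {a : ℕ} {s : MvPolynomial (Fin C.m) ℂ} (hs : s ∈ C.R a) :
    (Polynomial.C s : QQ C.m) ∈ QR C a := by
  intro l
  rw [Polynomial.coeff_C]
  split_ifs
  · exact hs
  · exact (C.R a).zero_mem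

private theorem qr_pow {C : Cone} (hC : Good C) {a : ℕ} {x : QQ C.m} (hx : x ∈ QR C a) (j : ℕ) :
    x ^ j ∈ QR C (j * a) := by
  induction j with
  | zero =>
    rw [pow_zero, Nat.zero_mul]
    exact qr_one hC
  | succ j ih =>
    rw [pow_succ, Nat.succ_mul]
    exact qr_mul hC ih hx

private theorem v_pow {C : Cone} (hC : Good C) {r : ℕ}
    {F : ℕ → ℕ → Submodule ℂ (MvPolynomial (Fin C.m) ℂ)} {h : ℕ} {v : Fin h → QQ C.m → ℤ}
    {b : Fin h → ℕ} (hV : VD C r F h v b) (i : Fin h) {a : ℕ} {x : QQ C.m}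
    (hx : x ∈ QR C (C.n * r * a)) (hx0 : x ≠ 0) (j : ℕ) : v i (x ^ j) = j * v i x := by
  induction j with
  | zero =>
    have h1 := hV.cst i 1 one_ne_zero
    rw [map_one, map_one] at h1
    rw [pow_zero, h1]
    simp
  | succ j ih =>
    have h1 : x ^ j ∈ QR C (C.n * r * (j * a)) := by
      have := qr_pow hC hx j
      have e : j * (C.n * r * a) = C.n * r * (j * a) := by ring
      rwa [e] at this
    rw [pow_succ, hV.mul i _ _ _ _ h1 hx (pow_ne_zero _ hx0) hx0, ih]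
    push_cast
    ring

theorem hMTG (hMVV : StMVV) (hMSU : StMSU) : StMTG := by
  intro C hC r F hF h v b hV ℓ δ u hu k hk x hx
  have hr : 0 < r := hF.hr
  have hn : 0 < C.n := hC.hn
  have hrk : 1 ≤ r * k := Nat.mul_pos hr hk
  obtain ⟨hM, -, -⟩ := hMSU C hC r F hF h v b hV u 1 k hrk
  obtain ⟨hx1, hx2, hx3⟩ := (hM x).mp hx
  rw [Nat.mul_one] at hx1
  refine ⟨hx1, hx2 0 Nat.one_pos, fun l hl hs => ?_⟩
  have hx0 : x ≠ 0 := by
    rintro rfl
    exact hs (Polynomial.coeff_zero l)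
  have hdeg : C.n * r * k - C.n = C.n * (r * k - 1) := by
    rw [Nat.mul_sub, Nat.mul_one, Nat.mul_assoc]
  set s := x.coeff l with hsdef
  have hsR : s ∈ C.R (C.n * (r * k - 1)) := by
    rw [← hdeg]
    exact hx1 l
  have hCs0 : (Polynomial.C s : QQ C.m) ≠ 0 := by
    rwa [Ne, Polynomial.C_eq_zero]
  have hCsr : (Polynomial.C s : QQ C.m) ^ r ∈ QR C (C.n * r * (r * k - 1)) := by
    have h1 := qr_pow hC (qr_C hsR) r
    have e : r * (C.n * (r * k - 1)) = C.n * r * (r * k - 1) := by ring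
    rwa [e] at h1
  have hCsr0 : (Polynomial.C s : QQ C.m) ^ r ≠ 0 := pow_ne_zero _ hCs0
  -- the values
  have hVpos : ∀ i, 0 ≤ v i ((Polynomial.C s : QQ C.m) ^ r) := by
    intro i
    refine hV.nonneg i (r * k - 1) _ ?_ hCsr0
    intro l'
    rw [← Polynomial.C_pow, Polynomial.coeff_C]
    split_ifs with h1
    · rw [h1, hF.zero]
      have h2 := hCsr 0
      rwa [← Polynomial.C_pow, Polynomial.coeff_C_zero] at h2
    · exact (F _ _).zero_mem
  have hVlow : ∀ i, (r : ℝ) * (l - ℓ) * b i < v i ((Polynomial.C s : QQ C.m) ^ r) := by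
    intro i
    obtain ⟨-, -, -, hd, -⟩ := hMVV C hC r F hF h v b hV i
    have h1 := hd (r * k - 1) x l (by rw [← hdeg]; exact hx1) hs
    have h2 := hx3 hx0 i
    have h3 := hu.low i
    rw [Nat.cast_one, one_mul] at h2
    have h4 : (v i (u ^ r) : ℝ) + (r : ℝ) * l * b i ≤ v i ((Polynomial.C s : QQ C.m) ^ r) := by
      have : v i (u ^ r) + (r : ℤ) * l * b i ≤ v i ((Polynomial.C s : QQ C.m) ^ r) := by
        linarith
      exact_mod_cast this
    have h5 : (r : ℝ) * (l - ℓ) * b i = -((r : ℝ) * ℓ * b i) + (r : ℝ) * l * b i := by ring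
    rw [h5]
    linarith
  -- the numbers
  have hnum : ∃ j lam : ℕ, 1 ≤ j ∧ ((r * j : ℕ) : ℝ) * (l - ℓ) < lam ∧
      ∀ i, (lam : ℤ) * b i ≤ j * v i ((Polynomial.C s : QQ C.m) ^ r) := by
    by_cases hρ : (r : ℝ) * (l - ℓ) < 0
    · refine ⟨1, 0, le_refl 1, ?_, fun i => ?_⟩
      · rw [Nat.mul_one, Nat.cast_zero]
        exact hρ
      · rw [Nat.cast_zero, zero_mul, Nat.cast_one, one_mul]
        exact hVpos i
    · push Not at hρ
      have hbp : ∀ i, (0 : ℝ) < b i := fun i => by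
        have := hV.bpos i
        exact_mod_cast this
      have hev : ∀ᶠ j : ℕ in Filter.atTop, ∀ i, (1 : ℝ) ≤
          j * ((v i ((Polynomial.C s : QQ C.m) ^ r) : ℝ) / b i - (r : ℝ) * (l - ℓ)) := by
        rw [Filter.eventually_all]
        intro i
        have hc : 0 < (v i ((Polynomial.C s : QQ C.m) ^ r) : ℝ) / b i - (r : ℝ) * (l - ℓ) := by
          rw [sub_pos, lt_div_iff₀ (hbp i)]
          exact hVlow i
        exact (tendsto_natCast_atTop_atTop.atTop_mul_const hc).eventually_ge_atTop 1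
      obtain ⟨j, hj1, hj⟩ := ((Filter.eventually_ge_atTop 1).and hev).exists
      refine ⟨j, ⌊(j : ℝ) * ((r : ℝ) * (l - ℓ))⌋₊ + 1, hj1, ?_, fun i => ?_⟩
      · have h1 := Nat.lt_floor_add_one ((j : ℝ) * ((r : ℝ) * (l - ℓ)))
        push_cast
        calc (r : ℝ) * j * (l - ℓ) = (j : ℝ) * ((r : ℝ) * (l - ℓ)) := by ring
          _ < _ := h1
      · have h1 : ((⌊(j : ℝ) * ((r : ℝ) * (l - ℓ))⌋₊ : ℕ) : ℝ) ≤ (j : ℝ) * ((r : ℝ) * (l - ℓ)) :=
          Nat.floor_le (by positivity)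
        have h2 := hj i
        have h3 : ((⌊(j : ℝ) * ((r : ℝ) * (l - ℓ))⌋₊ : ℕ) : ℝ) + 1 ≤
            j * ((v i ((Polynomial.C s : QQ C.m) ^ r) : ℝ) / b i) := by
          have : (j : ℝ) * ((v i ((Polynomial.C s : QQ C.m) ^ r) : ℝ) / b i - (r : ℝ) * (l - ℓ)) =
            j * ((v i ((Polynomial.C s : QQ C.m) ^ r) : ℝ) / b i) - j * ((r : ℝ) * (l - ℓ)) := by
            ring
          rw [this] at h2
          linarith
        have h4 : (((⌊(j : ℝ) * ((r : ℝ) * (l - ℓ))⌋₊ : ℕ) : ℝ) + 1) * b i ≤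
            j * (v i ((Polynomial.C s : QQ C.m) ^ r) : ℝ) := by
          have h5 := mul_le_mul_of_nonneg_right h3 (hbp i).le
          have h6 : (j : ℝ) * ((v i ((Polynomial.C s : QQ C.m) ^ r) : ℝ) / b i) * b i =
              j * (v i ((Polynomial.C s : QQ C.m) ^ r) : ℝ) := by
            have := (hbp i).ne'
            field_simp
          rwa [h6] at h5
        exact_mod_cast h4
  obtain ⟨j, lam, hj, hlt, hle⟩ := hnum
  refine ⟨j, lam, hj, ?_, hlt⟩
  -- membership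
  have hA : ((Polynomial.C s : QQ C.m) ^ r) ^ j ∈ QR C (C.n * r * (j * (r * k - 1))) := by
    have h1 := qr_pow hC hCsr j
    have e : j * (C.n * r * (r * k - 1)) = C.n * r * (j * (r * k - 1)) := by ring
    rwa [e] at h1
  have hX : (Polynomial.X : QQ C.m) ∈ QR C (C.n * r * 0) := by
    rw [Nat.mul_zero]
    exact qr_X hC
  have hXl : (Polynomial.X : QQ C.m) ^ lam ∈ QR C (C.n * r * 0) := by
    have h1 := qr_pow hC (qr_X hC) lam
    rw [Nat.mul_zero] at h1 ⊢
    exact h1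
  have hX0 : (Polynomial.X : QQ C.m) ≠ 0 := Polynomial.X_ne_zero
  have hprod : ((Polynomial.C s : QQ C.m) ^ r) ^ j * Polynomial.X ^ lam ∈
      QR C (C.n * r * (j * (r * k - 1))) := by
    have h1 := qr_mul hC hA hXl
    rwa [Nat.mul_zero, Nat.add_zero] at h1
  have hmem := hV.mem (j * (r * k - 1)) _ hprod
    (mul_ne_zero (pow_ne_zero _ hCsr0) (pow_ne_zero _ hX0)) (fun i => by
      rw [hV.mul i _ _ _ _ hA hXl (pow_ne_zero _ hCsr0) (pow_ne_zero _ hX0),
        v_pow hC hV i hCsr hCsr0, v_pow hC hV i hX hX0, hV.tau i]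
      have := hle i
      linarith)
  have h1 := hmem lam
  rw [← Polynomial.C_pow, ← Polynomial.C_pow, Polynomial.coeff_C_mul, Polynomial.coeff_X_pow,
    if_pos rfl, mul_one, ← pow_mul] at h1
  exact h1

end Pool.Agent.Helper19.KPA
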