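import Pool.Agent.Helper5.KPA.StT

set_option autoImplicit false

namespace Pool.Agent.Helper19.KPA

open Pool.Agent.Helper5.KPA Pool.Agent.Helper52.KP MvPolynomial

private theorem flag {V : Type} [AddCommGroup V] [Module ℂ V] : ∀ (L : ℕ) (G : ℕ → Submodule ℂ V),
    (∀ l, G (l + 1) ≤ G l) → FiniteDimensional ℂ (G 0) → G L = ⊥ →
    ∃ (ι : Type) (_ : Finite ι) (s : ι → V) (lam : ι → ℕ), LinearIndependent ℂ s ∧
      ∀ l, G l = Submodule.span ℂ (s '' {j | l ≤ lam j}) := by
  intro L
  induction L with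
  | zero =>
    intro G hG _ h0
    have h1 : ∀ l, G l = ⊥ := by
      intro l
      induction l with
      | zero => exact h0
      | succ l ih => exact le_bot_iff.mp (ih ▸ hG l)
    refine ⟨Fin 0, inferInstance, fun j => j.elim0, fun j => j.elim0,
      linearIndependent_empty_type, fun l => ?_⟩
    rw [h1 l]
    symm
    rw [Submodule.span_eq_bot]
    rintro x ⟨j, -, -⟩
    exact j.elim0
  | succ L ih =>
    intro G hG hfd hL
    have hfd1 : FiniteDimensional ℂ (G (0 + 1)) := Submodule.finiteDimensional_of_le (hG 0)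
    obtain ⟨ι, hι, s, lam, hli, hsp⟩ := ih (fun l => G (l + 1)) (fun l => hG (l + 1)) hfd1 hL
    have hr : G (0 + 1) = Submodule.span ℂ (Set.range s) := by
      rw [hsp 0]
      congr 1
      ext x
      simp
    obtain ⟨W', hW'⟩ := Submodule.exists_isCompl (G (0 + 1))
    have hWle : W' ⊓ G 0 ≤ G 0 := inf_le_right
    have hfdW : FiniteDimensional ℂ (W' ⊓ G 0 : Submodule ℂ V) :=
      Submodule.finiteDimensional_of_le hWle
    have hsup : G (0 + 1) ⊔ (W' ⊓ G 0) = G 0 := by
      rw [← sup_inf_assoc_of_le W' (hG 0), hW'.sup_eq_top, top_inf_eq]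
    have hdis : Disjoint (G (0 + 1)) (W' ⊓ G 0) := hW'.disjoint.mono_right inf_le_left
    let b := Module.finBasis ℂ (W' ⊓ G 0 : Submodule ℂ V)
    let t : Fin (Module.finrank ℂ (W' ⊓ G 0 : Submodule ℂ V)) → V := fun j => (b j : V)
    have htli : LinearIndependent ℂ t :=
      b.linearIndependent.map' (W' ⊓ G 0 : Submodule ℂ V).subtype (Submodule.ker_subtype _)
    have htsp : Submodule.span ℂ (Set.range t) = W' ⊓ G 0 := by
      have h1 : Set.range t = (W' ⊓ G 0 : Submodule ℂ V).subtype '' (Set.range b) := by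
        rw [← Set.range_comp]
        rfl
      rw [h1, Submodule.span_image, b.span_eq, Submodule.map_subtype_top]
    refine ⟨ι ⊕ Fin (Module.finrank ℂ (W' ⊓ G 0 : Submodule ℂ V)), inferInstance, Sum.elim s t,
      Sum.elim (fun j => lam j + 1) (fun _ => 0), ?_, ?_⟩
    · refine LinearIndependent.sum_type hli htli ?_
      rw [← hr, htsp]
      exact hdis
    · intro l
      rcases l with _ | l
      · have h2 : (Sum.elim s t '' {j | 0 ≤ Sum.elim (fun j => lam j + 1) (fun _ => 0) j}) =
            Set.range s ∪ Set.range t := by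
          rw [← Set.Sum.elim_range]
          ext x
          simp
        rw [h2, Submodule.span_union, htsp, ← hr, hsup]
      · have h2 : (Sum.elim s t '' {j | l + 1 ≤ Sum.elim (fun j => lam j + 1) (fun _ => 0) j}) =
            s '' {j | l ≤ lam j} := by
          ext x
          constructor
          · rintro ⟨j | j, hj, rfl⟩
            · exact ⟨j, Nat.le_of_succ_le_succ hj, rfl⟩
            · exact absurd hj (Nat.not_succ_le_zero l)
          · rintro ⟨j, hj, rfl⟩
            exact ⟨Sum.inl j, Nat.succ_le_succ hj, rfl⟩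
        rw [h2]
        exact hsp l

theorem hTAD : StTAD := by
  intro C hC r F hF
  obtain ⟨L, hL⟩ := hF.sep
  have hfd : FiniteDimensional ℂ (F 1 0) := by
    rw [hF.zero 1]
    exact hC.fd _
  obtain ⟨ι, hι, s, lam, hli, hsp⟩ := flag L (fun l => F 1 l) (hF.anti 1) hfd hL
  let e := Finite.equivFin ι
  refine ⟨Nat.card ι, s ∘ e.symm, lam ∘ e.symm, hli.comp _ e.symm.injective, fun l => ?_⟩
  rw [hsp l]
  congr 1
  ext x
  constructor
  · rintro ⟨j, hj, rfl⟩
    refine ⟨e j, ?_, ?_⟩
    · show l ≤ lam (e.symm (e j))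
      rw [Equiv.symm_apply_apply]
      exact hj
    · show s (e.symm (e j)) = s j
      rw [Equiv.symm_apply_apply]
  · rintro ⟨j, hj, rfl⟩
    exact ⟨e.symm j, hj, rfl⟩

end Pool.Agent.Helper19.KPA
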